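import Pool.Agent.Q286.XG.StmN
import Pool.Agent.Q38.XG.RGs
import Pool.Agent.Q68.XG.Rgd

set_option autoImplicit false

/-!
# Project EXG: `S_RGsN`, `S_RGdN`, trial functions of explicit degrees

After `Q38/XG/RGs.lean` (helper38) and `Q68/XG/Rgd.lean` (helper68).
-/

open Filter Topology
open scoped ComplexConjugate

namespace Pool.Agent.Q285.XG

open Pool.Agent Pool.Agent.Q286.XG Pool.Agent.Q286 Pool.Agent.Q240

/-- **RGsN** -/
theorem rgsn : S_RGsN := by
  intro hL L hSD γ c hc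
  have hSD' : @CG.SD (TR.D1 L) := CG.sd_of (L := TR.toL L) hSD
  have hR := hL (L := TR.toL L)
  have hm : (1 : ℝ) ≤ L.m := by exact_mod_cast L.one_le_m
  have hQ : (0 : ℝ) < L.Q := lt_of_lt_of_le one_pos L.one_le_Q
  have hq : Y23.G.cc (L := TR.toL L) = Real.pi * L.m * L.Q ^ (-(1 / (L.m : ℝ))) := by
    unfold Y23.G.cc
    rw [Real.rpow_def_of_pos hQ]
    congr 2
    show -(Real.log L.Q / L.m) = Real.log L.Q * -(1 / (L.m : ℝ))
    ring
  rw [← hq] at hc
  obtain ⟨c', hc1, hc2⟩ := exists_between hc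
  obtain ⟨C, K, hC⟩ := hR γ c' hc2
  refine ⟨C, K, ?_⟩
  have hE : Tendsto (fun a : ℝ => Real.exp (2 * a / L.m)) atTop atTop := by
    refine Real.tendsto_exp_atTop.comp ?_
    refine Tendsto.atTop_div_const (by linarith) ?_
    exact tendsto_id.const_mul_atTop (by norm_num)
  have hE2 : Tendsto (fun a : ℝ => (c' - c) * Real.exp (2 * a / L.m)) atTop atTop :=
    hE.const_mul_atTop (by linarith)
  filter_upwards [hC, hE2.eventually_ge_atTop (Real.log 2)] with a ha h5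
  intro ν hν
  obtain ⟨G, h1, h2, h3, h4⟩ := ha ν hν
  refine ⟨G, h1, h2, h3, ?_⟩
  have e1 : Y23.G.SS (D := TR.D2 L) G = 2 * Y23.G.SS (D := TR.D1 L) G := Q38.XG.SS_two (TR.D1 L) G
  have e2 : (mc (D := TR.D2 L) (1 / 2 + Complex.I * γ) : ℝ) = 2 * (mc (D := TR.D1 L) (1 / 2 + Complex.I * γ) : ℝ) := by
    rw [Q38.XG.mc_eq, Q38.XG.mc_eq, Q38.XG.wt_two (TR.D1 L)]
    push_cast
    ring
  have h6 : 2 * Real.exp (-(c' * Real.exp (2 * a / L.m))) ≤ Real.exp (-(c * Real.exp (2 * a / L.m))) := by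
    have h7 : Real.exp (Real.log 2 + -(c' * Real.exp (2 * a / L.m))) ≤ Real.exp (-(c * Real.exp (2 * a / L.m))) := by
      rw [Real.exp_le_exp]
      have e3 : (c' - c) * Real.exp (2 * a / L.m) = c' * Real.exp (2 * a / L.m) - c * Real.exp (2 * a / L.m) := by ring
      linarith
    rwa [Real.exp_add, Real.exp_log (by norm_num)] at h7
  have h8 : Y23.G.SS (D := TR.D1 L) G ≤ (mc (D := TR.D1 L) (1 / 2 + Complex.I * γ) : ℝ) +
      Real.exp (-(c' * Real.exp (2 * a / L.m))) := h4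
  rw [e1, e2]
  linarith

/-- **RGdN** -/
theorem rgdn : S_RGdN := by
  intro h L
  have h1 := h (L := Q68.XG.prodL L)
  have hm0 : (0 : ℝ) < L.m := by exact_mod_cast L.one_le_m
  have hQ0 : (0 : ℝ) < L.Q := lt_of_lt_of_le one_pos L.one_le_Q
  have e1 : (fun a => Real.exp (2 * a / (Q68.XG.prodL L).m)) = fun a => Real.exp (a / L.m) := by
    funext a
    rw [Q68.XG.prodL_m]
    congr 1
    push_cast
    field_simp
  have e2 : Y23.G.cc (L := Q68.XG.prodL L) = 2 * Real.pi * L.m * L.Q ^ (-(1 / (L.m : ℝ))) := by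
    unfold Y23.G.cc
    rw [Q68.XG.prodL_m]
    have e3 : (Q68.XG.prodL L).N = L.Q * L.Q := rfl
    rw [e3, Real.log_mul hQ0.ne' hQ0.ne', Real.rpow_def_of_pos hQ0]
    push_cast
    have e4 : -((Real.log L.Q + Real.log L.Q) / (2 * (L.m : ℝ))) = Real.log L.Q * -(1 / (L.m : ℝ)) := by
      field_simp
      ring
    rw [e4]
    ring
  rw [e1, e2, Q68.XG.zd_prod] at h1
  exact h1

end Pool.Agent.Q285.XG
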